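import Pool.Agent.Work.MP_5010fd_co.Final

/-!
# Transversal `F`-factors in a system intersected with one random hypergraph

For every strictly `1`-balanced `k`-graph `F` with `s` vertices and `t` edges, every `k`-graph
system with minimum `d`-degree above the transversal threshold stays, after intersection with one
binomial random `k`-graph of density at least `C n ^ (-(s - 1) / t) (log n) ^ (1 / t)`, a system
with a transversal `F`-factor, with high probability.
-/

namespace Pool.Agent.Results.MP_5010fd_co.TransversalFactors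

open Pool.Agent.TFactor

/-- **Theorem.** For all `k ≥ 2`, `s`, `t ≥ 1` and `α > 0` there is `C > 0` such that for all
`1 ≤ d ≤ k - 1` and all strictly `1`-balanced `k`-graphs `F` with vertex set `Fin s` and `t`
edges: for every `ε > 0` and all large `n`, every `k`-graph system `H` indexed by `Fin (t * n)` on
the vertex set `Fin (s * n)` with minimum `d`-degree at least
`(deltaT + α) * C(s n - d, k - d)`, and every `p ≤ 1` with
`p ≥ C n ^ (-(s - 1) / t) (log n) ^ (1 / t)`, the system of all `H i ∩ G`, with `G` the binomial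
random `k`-graph of density `p`, has a transversal `F`-factor with probability at least
`1 - ε`. -/
theorem result : ∀ k s t : ℕ, 2 ≤ k → 1 ≤ t → ∀ α : ℝ, 0 < α →
    ∃ C : ℝ, 0 < C ∧ ∀ d : ℕ, 1 ≤ d → d ≤ k - 1 → ∀ F : Finset (Finset (Fin s)),
      (∀ e ∈ F, e.card = k) → F.card = t → StrictBal F →
      ∀ ε : ℝ, 0 < ε → ∃ n0 : ℕ, ∀ n ≥ n0,
      ∀ H : Fin (t * n) → Finset (Finset (Fin (s * n))), (∀ i, ∀ e ∈ H i, e.card = k) →
      (∀ i, DegGE d ((deltaT k s t d F + α) * ((s * n - d).choose (k - d) : ℝ)) (H i)) →
      ∀ p : ℝ, p ≤ 1 →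
        C * (n : ℝ) ^ (-(((s : ℝ) - 1) / t)) * (Real.log n) ^ (1 / (t : ℝ)) ≤ p →
        1 - ε ≤ probG k p (fun G => HasTF F t n (fun i => H i ∩ G)) :=
  fun k s t hk ht α hα => main_theorem k s t hk ht α hα

end Pool.Agent.Results.MP_5010fd_co.TransversalFactors
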